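import Mathlib

/-!
# Blocks with deep valleys, general parameters
-/

set_option autoImplicit false

open Filter Topology

namespace Pool.Agent.KS6_29.FJ

/-- parameters of the construction -/
structure Par where
  l : ℕ → ℕ
  X : ℕ → ℕ
  l_mono : Monotone l
  l_ge : ∀ s, s + 2 ≤ l s
  X_zero : 1 ≤ X 0
  X_succ : ∀ i, 64 * X i ≤ X (i + 1)

variable (P : Par)

/-- the radii -/
noncomputable def R (l : ℕ → ℕ) : ℕ → ℝ
  | 0 => 2
  | i + 1 => R l i + 1 / 2 ^ (l ⌊R l i⌋₊)

/-- the window exponents -/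
noncomputable def m (l : ℕ → ℕ) : ℕ → ℕ
  | 0 => l 0
  | i + 1 => l ⌊R l i⌋₊

noncomputable def q (i : ℕ) : ℕ := m P.l i * P.X i
noncomputable def B (l : ℕ → ℕ) (i : ℕ) : ℕ := ⌈R l i⌉₊
noncomputable def N (i : ℕ) : ℕ := 2 * (B P.l i * 2 ^ (m P.l i) * q P i)
def p (i : ℕ) : ℕ := 6 * P.X i

lemma R_succ (l : ℕ → ℕ) (i : ℕ) : R l (i + 1) = R l i + 1 / 2 ^ (m l (i + 1)) := rfl

lemma R_mono (l : ℕ → ℕ) {i j : ℕ} (h : i ≤ j) : R l i ≤ R l j := by
  apply monotone_nat_of_le_succ _ h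
  intro n
  rw [R_succ]
  have : (0 : ℝ) < 1 / 2 ^ (m l (n + 1)) := by positivity
  linarith

lemma R_ge_two (l : ℕ → ℕ) (i : ℕ) : (2 : ℝ) ≤ R l i := by
  have := R_mono l (Nat.zero_le i)
  have h0 : R l 0 = 2 := rfl
  linarith

variable {P}

lemma m_mono {i j : ℕ} (h : i ≤ j) : m P.l i ≤ m P.l j := by
  apply monotone_nat_of_le_succ _ h
  intro n
  cases n with
  | zero => exact P.l_mono (Nat.zero_le _)
  | succ n =>
    show P.l ⌊R P.l n⌋₊ ≤ P.l ⌊R P.l (n + 1)⌋₊
    exact P.l_mono (Nat.floor_mono (R_mono _ (by omega)))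

lemma two_le_m (i : ℕ) : 2 ≤ m P.l i := by
  have h := m_mono (P := P) (Nat.zero_le i)
  have h0 : m P.l 0 = P.l 0 := rfl
  have := P.l_ge 0
  omega

lemma X_pos (i : ℕ) : 0 < P.X i := by
  induction i with
  | zero => exact P.X_zero
  | succ n ih => have := P.X_succ n; omega

lemma R_diff (i d : ℕ) : R P.l (i + d) - R P.l i ≤ (d : ℝ) * (1 / 2 ^ (m P.l i)) := by
  induction d with
  | zero => simp
  | succ d ih =>
    rw [show i + (d + 1) = (i + d) + 1 by ring, R_succ]
    have h : (1 : ℝ) / 2 ^ (m P.l (i + d + 1)) ≤ 1 / 2 ^ (m P.l i) := by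
      apply one_div_le_one_div_of_le (by positivity)
      exact pow_le_pow_right₀ (by norm_num) (m_mono (by omega))
    push_cast
    linarith

lemma R_le_B (l : ℕ → ℕ) (i : ℕ) : R l i ≤ B l i := Nat.le_ceil _

lemma B_le (l : ℕ → ℕ) (i : ℕ) : (B l i : ℝ) ≤ 3 / 2 * R l i := by
  have h1 : (B l i : ℝ) < R l i + 1 := Nat.ceil_lt_add_one (by linarith [R_ge_two l i])
  linarith [R_ge_two l i]

variable (P)

/-- the size of the block on the positive ray -/
noncomputable def T (i : ℕ) (r : ℝ) : ℝ :=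
  Real.exp (q P i) * (r / R P.l i) ^ (N P i) * |1 - r / R P.l i| ^ (p P i)

variable {P}

lemma T_nonneg (i : ℕ) {r : ℝ} (hr : 0 ≤ r) : 0 ≤ T P i r := by
  unfold T
  have := R_ge_two P.l i
  positivity

lemma qp (i : ℕ) : (q P i : ℝ) = m P.l i * P.X i := by unfold q; push_cast; ring

lemma half_pow_exp (n : ℕ) : ((1 : ℝ) / 2) ^ n ≤ Real.exp (-(2 / 3) * n) := by
  have h : (1 : ℝ) / 2 ≤ Real.exp (-(2 / 3)) := by
    have h1 : Real.exp (2 / 3) ≤ 2 := by
      have h2 : Real.exp 2 ≤ 2 ^ 3 := by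
        have h3 : Real.exp 1 < 2.7182818286 := Real.exp_one_lt_d9
        have h4 : Real.exp 2 = Real.exp 1 * Real.exp 1 := by rw [← Real.exp_add]; norm_num
        rw [h4]
        nlinarith [Real.exp_pos 1]
      have h3 : Real.exp (2 / 3) ^ 3 = Real.exp 2 := by
        rw [← Real.exp_nat_mul]; norm_num
      by_contra hcon
      push Not at hcon
      have h4 : (2 : ℝ) ^ 3 < Real.exp (2 / 3) ^ 3 := by
        apply pow_lt_pow_left₀ hcon (by norm_num) (by norm_num)
      linarith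
    rw [Real.exp_neg, ← one_div]
    exact one_div_le_one_div_of_le (Real.exp_pos _) h1
  calc ((1 : ℝ) / 2) ^ n ≤ (Real.exp (-(2 / 3))) ^ n := pow_le_pow_left₀ (by norm_num) h n
    _ = Real.exp (-(2 / 3) * n) := by rw [← Real.exp_nat_mul]; ring_nf

/-- valley: if |1 - r/R i| ≤ 2^{-m i} then the factor is at most exp (-4 q i) -/
lemma valley {i : ℕ} {r : ℝ} (h : |1 - r / R P.l i| ≤ 1 / 2 ^ (m P.l i)) :
    |1 - r / R P.l i| ^ (p P i) ≤ Real.exp (-(4 * q P i)) := by
  calc |1 - r / R P.l i| ^ (p P i) ≤ (1 / 2 ^ (m P.l i)) ^ (p P i) :=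
        pow_le_pow_left₀ (abs_nonneg _) h _
    _ = ((1 : ℝ) / 2) ^ (m P.l i * p P i) := by rw [pow_mul]; congr 1; rw [one_div_pow]
    _ ≤ Real.exp (-(2 / 3) * ((m P.l i * p P i : ℕ) : ℝ)) := half_pow_exp _
    _ = Real.exp (-(4 * q P i)) := by
      congr 1
      rw [qp]
      unfold p
      push_cast
      ring

/-- growth bound to the right of `R i` -/
lemma grow {i d : ℕ} {r : ℝ} (h2 : r ≤ R P.l (i + d)) :
    r / R P.l i ≤ Real.exp ((d : ℝ) / (2 ^ (m P.l i) * R P.l i)) := by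
  have hR := R_ge_two P.l i
  have h3 := R_diff (P := P) i d
  have h4 : r / R P.l i = 1 + (r - R P.l i) / R P.l i := by field_simp; ring
  have h5 : (r - R P.l i) / R P.l i ≤ (d : ℝ) / (2 ^ (m P.l i) * R P.l i) := by
    calc (r - R P.l i) / R P.l i ≤ ((d : ℝ) * (1 / 2 ^ (m P.l i))) / R P.l i := by
          apply div_le_div_of_nonneg_right _ (by linarith)
          linarith
      _ = (d : ℝ) / (2 ^ (m P.l i) * R P.l i) := by field_simp
  rw [h4]
  have := Real.add_one_le_exp ((d : ℝ) / (2 ^ (m P.l i) * R P.l i))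
  linarith

lemma NR (i : ℕ) : (N P i : ℝ) = 2 * (B P.l i * 2 ^ (m P.l i) * q P i) := by
  unfold N; push_cast; ring

lemma grow_N {i d : ℕ} {r : ℝ} (h1 : R P.l i ≤ r) (h2 : r ≤ R P.l (i + d)) :
    (r / R P.l i) ^ (N P i) ≤ Real.exp (3 * q P i * d) := by
  have hR := R_ge_two P.l i
  have h3 := grow h2
  calc (r / R P.l i) ^ (N P i) ≤ (Real.exp ((d : ℝ) / (2 ^ (m P.l i) * R P.l i))) ^ (N P i) :=
        pow_le_pow_left₀ (div_nonneg (by linarith) (by linarith)) h3 _
    _ = Real.exp ((N P i : ℝ) * ((d : ℝ) / (2 ^ (m P.l i) * R P.l i))) := by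
        rw [← Real.exp_nat_mul]
    _ ≤ Real.exp (3 * q P i * d) := by
      apply Real.exp_le_exp.mpr
      rw [NR]
      have h4 : 2 * ((B P.l i : ℝ) * 2 ^ (m P.l i) * q P i) *
          ((d : ℝ) / (2 ^ (m P.l i) * R P.l i))
          = (2 * (B P.l i : ℝ) / R P.l i) * (q P i * d) := by
        field_simp
      rw [h4]
      have h5 : (2 * (B P.l i : ℝ) / R P.l i) ≤ 3 := by
        rw [div_le_iff₀ (by linarith)]
        linarith [B_le P.l i]
      have h6 : (0 : ℝ) ≤ q P i * d := by positivity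
      nlinarith

/-- (a) far blocks to the right -/
lemma T_right {i : ℕ} {r : ℝ} (h0 : 0 ≤ r) (h : r ≤ R P.l i) :
    T P (i + 1) r ≤ Real.exp (-(q P (i + 1))) := by
  have hR := R_ge_two P.l (i + 1)
  have hB := R_le_B P.l (i + 1)
  have h1 : r / R P.l (i + 1) ≤ Real.exp (-(1 / (2 ^ (m P.l (i + 1)) * R P.l (i + 1)))) := by
    have h2 : r / R P.l (i + 1) ≤ R P.l i / R P.l (i + 1) :=
      div_le_div_of_nonneg_right h (by linarith)
    have h3 : R P.l i / R P.l (i + 1) = 1 - 1 / (2 ^ (m P.l (i + 1)) * R P.l (i + 1)) := by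
      have h30 : R P.l (i + 1) ≠ 0 := by linarith
      have h31 : R P.l i = R P.l (i + 1) - 1 / 2 ^ (m P.l (i + 1)) := by rw [R_succ]; ring
      rw [h31]
      field_simp
    have h5 := Real.add_one_le_exp (-(1 / (2 ^ (m P.l (i + 1)) * R P.l (i + 1))))
    linarith
  have h6 : (r / R P.l (i + 1)) ^ (N P (i + 1)) ≤ Real.exp (-(2 * q P (i + 1))) := by
    calc (r / R P.l (i + 1)) ^ (N P (i + 1))
        ≤ (Real.exp (-(1 / (2 ^ (m P.l (i + 1)) * R P.l (i + 1))))) ^ (N P (i + 1)) :=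
          pow_le_pow_left₀ (by positivity) h1 _
      _ ≤ Real.exp (-(2 * q P (i + 1))) := by
        rw [← Real.exp_nat_mul, NR, Real.exp_le_exp]
        have h7 : 2 * ((B P.l (i + 1) : ℝ) * 2 ^ (m P.l (i + 1)) * q P (i + 1)) *
            -(1 / (2 ^ (m P.l (i + 1)) * R P.l (i + 1)))
            = -((B P.l (i + 1) : ℝ) / R P.l (i + 1) * (2 * q P (i + 1))) := by
          field_simp
        rw [h7]
        have h8 : 1 ≤ (B P.l (i + 1) : ℝ) / R P.l (i + 1) := by
          rw [le_div_iff₀ (by linarith)]; linarith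
        have h9 : (0 : ℝ) ≤ 2 * q P (i + 1) := by positivity
        nlinarith
  have h7 : |1 - r / R P.l (i + 1)| ≤ 1 := by
    have h8 : r / R P.l (i + 1) ≤ 1 := by
      rw [div_le_one (by linarith)]
      exact h.trans (R_mono _ (by omega))
    have h9 : 0 ≤ r / R P.l (i + 1) := by positivity
    rw [abs_le]; constructor <;> linarith
  unfold T
  calc Real.exp (q P (i + 1)) * (r / R P.l (i + 1)) ^ (N P (i + 1)) *
        |1 - r / R P.l (i + 1)| ^ (p P (i + 1))
      ≤ Real.exp (q P (i + 1)) * Real.exp (-(2 * q P (i + 1))) * 1 := by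
        apply mul_le_mul _ (pow_le_one₀ (abs_nonneg _) h7) (by positivity) (by positivity)
        exact mul_le_mul_of_nonneg_left h6 (Real.exp_pos _).le
    _ = Real.exp (-(q P (i + 1))) := by
      rw [mul_one, ← Real.exp_add]; congr 1; ring

/-- (b) the next block -/
lemma T_next {i : ℕ} {r : ℝ} (h1 : R P.l i ≤ r) (h2 : r ≤ R P.l (i + 1)) :
    T P (i + 1) r ≤ 1 := by
  have hR := R_ge_two P.l (i + 1)
  have hRi := R_ge_two P.l i
  have h8 : r / R P.l (i + 1) ≤ 1 := by
    rw [div_le_one (by linarith)]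
    exact h2
  have h9 : 0 ≤ r / R P.l (i + 1) := div_nonneg (by linarith) (by linarith)
  have h3 : |1 - r / R P.l (i + 1)| ≤ 1 / 2 ^ (m P.l (i + 1)) := by
    rw [abs_of_nonneg (by linarith)]
    have h4 : 1 - r / R P.l (i + 1) = (R P.l (i + 1) - r) / R P.l (i + 1) := by field_simp
    rw [h4]
    have h5 : (R P.l (i + 1) - r) ≤ 1 / 2 ^ (m P.l (i + 1)) := by
      have := R_succ P.l i
      linarith
    rw [div_le_iff₀ (by linarith)]
    calc R P.l (i + 1) - r ≤ 1 / 2 ^ (m P.l (i + 1)) * 1 := by linarith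
      _ ≤ 1 / 2 ^ (m P.l (i + 1)) * R P.l (i + 1) := by
        apply mul_le_mul_of_nonneg_left (by linarith) (by positivity)
  have h4 := valley h3
  unfold T
  calc Real.exp (q P (i + 1)) * (r / R P.l (i + 1)) ^ (N P (i + 1)) *
        |1 - r / R P.l (i + 1)| ^ (p P (i + 1))
      ≤ Real.exp (q P (i + 1)) * 1 * Real.exp (-(4 * q P (i + 1))) := by
        apply mul_le_mul _ h4 (by positivity) (by positivity)
        exact mul_le_mul_of_nonneg_left (pow_le_one₀ h9 h8) (Real.exp_pos _).le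
    _ = Real.exp (-(3 * q P (i + 1))) := by
      rw [mul_one, ← Real.exp_add]; congr 1; ring
    _ ≤ 1 := by
      apply Real.exp_le_one_iff.mpr
      have : (0 : ℝ) ≤ q P (i + 1) := by positivity
      linarith

/-- (c) the present block -/
lemma T_self {i : ℕ} {r : ℝ} (h1 : R P.l i ≤ r) (h2 : r ≤ R P.l (i + 1)) : T P i r ≤ 1 := by
  have hRi := R_ge_two P.l i
  have h3 : |1 - r / R P.l i| ≤ 1 / 2 ^ (m P.l i) := by
    have h8 : 1 ≤ r / R P.l i := by rw [le_div_iff₀ (by linarith)]; linarith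
    rw [abs_of_nonpos (by linarith)]
    have h4 : -(1 - r / R P.l i) = (r - R P.l i) / R P.l i := by field_simp; ring
    rw [h4]
    have h5 : r - R P.l i ≤ 1 / 2 ^ (m P.l i) := by
      have := R_diff (P := P) i 1
      push_cast at this
      linarith
    rw [div_le_iff₀ (by linarith)]
    calc r - R P.l i ≤ 1 / 2 ^ (m P.l i) * 1 := by linarith
      _ ≤ 1 / 2 ^ (m P.l i) * R P.l i := by
        apply mul_le_mul_of_nonneg_left (by linarith) (by positivity)
  have h4 := valley h3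
  have h5 := grow_N h1 (d := 1) h2
  unfold T
  calc Real.exp (q P i) * (r / R P.l i) ^ (N P i) * |1 - r / R P.l i| ^ (p P i)
      ≤ Real.exp (q P i) * Real.exp (3 * q P i * (1 : ℕ)) * Real.exp (-(4 * q P i)) := by
        apply mul_le_mul _ h4 (by positivity) (by positivity)
        exact mul_le_mul_of_nonneg_left h5 (Real.exp_pos _).le
    _ = 1 := by
      rw [← Real.exp_add, ← Real.exp_add]
      rw [← Real.exp_zero]; congr 1; push_cast; ring

/-- (d) blocks to the left -/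
lemma T_left {i d : ℕ} {r : ℝ} (h1 : R P.l i ≤ r) (h2 : r ≤ R P.l (i + d)) :
    T P i r ≤ Real.exp (q P i * (1 + 4 * d)) := by
  have hR := R_ge_two P.l i
  have hm : (2 : ℝ) ≤ m P.l i := by exact_mod_cast two_le_m (P := P) i
  have h3 := grow_N h1 h2
  have h4 : |1 - r / R P.l i| ≤ r / R P.l i := by
    have h8 : 1 ≤ r / R P.l i := by rw [le_div_iff₀ (by linarith)]; linarith
    rw [abs_of_nonpos (by linarith)]; linarith
  have h5 : |1 - r / R P.l i| ^ (p P i) ≤ Real.exp (q P i * d) := by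
    calc |1 - r / R P.l i| ^ (p P i) ≤ (r / R P.l i) ^ (p P i) :=
          pow_le_pow_left₀ (abs_nonneg _) h4 _
      _ ≤ (Real.exp ((d : ℝ) / (2 ^ (m P.l i) * R P.l i))) ^ (p P i) :=
        pow_le_pow_left₀ (div_nonneg (by linarith) (by linarith)) (grow h2) _
      _ = Real.exp ((p P i : ℝ) * ((d : ℝ) / (2 ^ (m P.l i) * R P.l i))) := by
        rw [← Real.exp_nat_mul]
      _ ≤ Real.exp (q P i * d) := by
        apply Real.exp_le_exp.mpr
        rw [qp]
        unfold p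
        push_cast
        have h6 : (4 : ℝ) ≤ 2 ^ (m P.l i) := by
          calc (4 : ℝ) = 2 ^ 2 := by norm_num
            _ ≤ 2 ^ (m P.l i) := pow_le_pow_right₀ (by norm_num) (two_le_m i)
        have h7 : (6 : ℝ) * P.X i * ((d : ℝ) / (2 ^ (m P.l i) * R P.l i))
            = (6 / (2 ^ (m P.l i) * R P.l i)) * (P.X i * d) := by
          field_simp
        rw [h7]
        have h8 : (6 : ℝ) / (2 ^ (m P.l i) * R P.l i) ≤ m P.l i := by
          rw [div_le_iff₀ (by positivity)]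
          calc (6 : ℝ) ≤ 2 * (4 * 2) := by norm_num
            _ ≤ (m P.l i : ℝ) * (2 ^ (m P.l i) * R P.l i) := by gcongr
        have h9 : (0 : ℝ) ≤ P.X i * d := by positivity
        nlinarith
  unfold T
  calc Real.exp (q P i) * (r / R P.l i) ^ (N P i) * |1 - r / R P.l i| ^ (p P i)
      ≤ Real.exp (q P i) * Real.exp (3 * q P i * d) * Real.exp (q P i * d) := by
        apply mul_le_mul _ h5 (by positivity) (by positivity)
        exact mul_le_mul_of_nonneg_left h3 (Real.exp_pos _).le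
    _ = Real.exp (q P i * (1 + 4 * d)) := by
      rw [← Real.exp_add, ← Real.exp_add]; congr 1; ring

lemma X_shift (i d : ℕ) : P.X i * 64 ^ d ≤ P.X (i + d) := by
  induction d with
  | zero => simp
  | succ d ih =>
    calc P.X i * 64 ^ (d + 1) = 64 * (P.X i * 64 ^ d) := by ring
      _ ≤ 64 * P.X (i + d) := by omega
      _ ≤ P.X (i + d + 1) := P.X_succ _

lemma q_shift (i d : ℕ) : q P i * 64 ^ d ≤ q P (i + d) := by
  unfold q
  calc m P.l i * P.X i * 64 ^ d = m P.l i * (P.X i * 64 ^ d) := by ring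
    _ ≤ m P.l (i + d) * P.X (i + d) := Nat.mul_le_mul (m_mono (by omega)) (X_shift _ _)

lemma nat_aux (d : ℕ) : 1 + 4 * (d + 2) ≤ 9 * 64 ^ d := by
  induction d with
  | zero => norm_num
  | succ d ih => rw [pow_succ]; omega

/-- (d') blocks to the left, final form -/
lemma T_left' {i d : ℕ} {r : ℝ} (h1 : R P.l i ≤ r) (h2 : r ≤ R P.l (i + d + 2)) :
    T P i r ≤ Real.exp (9 * q P (i + d)) := by
  have h3 : r ≤ R P.l (i + (d + 2)) := h2
  refine (T_left h1 h3).trans ?_
  apply Real.exp_le_exp.mpr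
  have h4 : (q P i : ℝ) * 64 ^ d ≤ q P (i + d) := by exact_mod_cast q_shift i d
  have h5 : (1 : ℝ) + 4 * ((d : ℝ) + 2) ≤ 9 * 64 ^ d := by exact_mod_cast nat_aux d
  have h6 : (0 : ℝ) ≤ q P i := by positivity
  push_cast
  nlinarith

/-- the radii tend to infinity -/
lemma R_unbounded (C : ℝ) : ∃ i, C < R P.l i := by
  by_contra hcon
  push Not at hcon
  have h1 : ∀ i, m P.l i ≤ P.l ⌊C⌋₊ := by
    intro i
    cases i with
    | zero => exact P.l_mono (Nat.zero_le _)
    | succ n => exact P.l_mono (Nat.floor_mono (hcon n))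
  have h2 : ∀ n : ℕ, (n : ℝ) * (1 / 2 ^ (P.l ⌊C⌋₊)) ≤ R P.l n := by
    intro n
    induction n with
    | zero => simp; linarith [R_ge_two P.l 0]
    | succ n ih =>
      rw [R_succ]
      have h3 : (1 : ℝ) / 2 ^ (P.l ⌊C⌋₊) ≤ 1 / 2 ^ (m P.l (n + 1)) := by
        apply one_div_le_one_div_of_le (by positivity)
        exact pow_le_pow_right₀ (by norm_num) (h1 _)
      push_cast
      linarith
  obtain ⟨n, hn⟩ := exists_nat_gt (C * 2 ^ (P.l ⌊C⌋₊))
  have h3 := (h2 n).trans (hcon n)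
  rw [mul_one_div, div_le_iff₀ (by positivity)] at h3
  linarith

lemma R_tendsto : Tendsto (R P.l) atTop atTop := by
  apply tendsto_atTop_atTop_of_monotone (fun i j h => R_mono _ h)
  intro C
  obtain ⟨i, hi⟩ := R_unbounded (P := P) C
  exact ⟨i, hi.le⟩

end Pool.Agent.KS6_29.FJ
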