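import Pool.Agent.KS6_29.FJ.A

set_option autoImplicit false

open Filter Topology

namespace Pool.Agent.KS6_29.FJ

lemma coeff_lemma (a : ℕ → ℂ) (f : ℂ → ℂ) (h : ∀ z, HasSum (fun k => a k * z ^ k) (f z))
    (h' : ∀ r : NNReal, Summable (fun k => ‖a k‖ * (r : ℝ) ^ k)) :
    ∀ k, iteratedDeriv k f 0 = (k.factorial : ℂ) * a k := by
  set P : FormalMultilinearSeries ℂ ℂ ℂ := FormalMultilinearSeries.ofScalars ℂ a with hP
  have hPn : ∀ (n : ℕ) (z : ℂ), P n (fun _ => z) = a n * z ^ n := by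
    intro n z
    simp [hP, FormalMultilinearSeries.ofScalars]
  have hnorm : ∀ n, ‖P n‖ = ‖a n‖ := by
    intro n
    simp [hP]
  have hrad : P.radius = ⊤ := by
    apply FormalMultilinearSeries.radius_eq_top_of_summable_norm
    intro r
    simp only [hnorm]
    exact h' r
  have hball : HasFPowerSeriesOnBall P.sum P 0 P.radius :=
    P.hasFPowerSeriesOnBall (by rw [hrad]; exact ENNReal.zero_lt_top)
  have hsum : P.sum = f := by
    funext z
    unfold FormalMultilinearSeries.sum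
    simp only [hPn]
    exact (h z).tsum_eq
  rw [hsum] at hball
  intro k
  have h1 := hball.factorial_smul (1 : ℂ) k
  rw [hPn] at h1
  rw [iteratedDeriv_eq_iteratedFDeriv, ← h1]
  simp

variable (P : Par)

/-- majorant of the block -/
noncomputable def U (i : ℕ) (ρ : ℝ) : ℝ :=
  Real.exp (q P i) * (ρ / R P.l i) ^ (N P i) * (1 + ρ / R P.l i) ^ (p P i)

/-- the block -/
noncomputable def F (i : ℕ) (z : ℂ) : ℂ :=
  (Real.exp (q P i) : ℂ) * (z / (R P.l i : ℂ)) ^ (N P i) * (1 - z / (R P.l i : ℂ)) ^ (p P i)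

variable {P}

lemma U_nonneg (i : ℕ) {ρ : ℝ} (h : 0 ≤ ρ) : 0 ≤ U P i ρ := by
  unfold U
  have := R_ge_two P.l i
  positivity

lemma norm_R (i : ℕ) : ‖(R P.l i : ℂ)‖ = R P.l i := by
  have := R_ge_two P.l i
  rw [Complex.norm_real, Real.norm_of_nonneg (by linarith)]

lemma F_le (i : ℕ) (z : ℂ) : ‖F P i z‖ ≤ U P i ‖z‖ := by
  unfold F U
  have hR := R_ge_two P.l i
  rw [norm_mul, norm_mul, norm_pow, norm_pow, norm_div, norm_R, Complex.norm_real,
    Real.norm_of_nonneg (Real.exp_pos _).le]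
  apply mul_le_mul_of_nonneg_left _ (by positivity)
  apply pow_le_pow_left₀ (norm_nonneg _)
  calc ‖1 - z / (R P.l i : ℂ)‖ ≤ ‖(1 : ℂ)‖ + ‖z / (R P.l i : ℂ)‖ := norm_sub_le _ _
    _ = 1 + ‖z‖ / R P.l i := by rw [norm_one, norm_div, norm_R]

lemma U_mono (i : ℕ) {s t : ℝ} (h0 : 0 ≤ s) (h : s ≤ t) : U P i s ≤ U P i t := by
  unfold U
  have hR := R_ge_two P.l i
  have h1 : 0 ≤ t / R P.l i := div_nonneg (by linarith) (by linarith)
  gcongr

lemma X_ge (i : ℕ) : 64 ^ i ≤ P.X i := by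
  have h := X_shift (P := P) 0 i
  have := X_pos (P := P) 0
  rw [zero_add] at h
  calc 64 ^ i = 1 * 64 ^ i := by ring
    _ ≤ P.X 0 * 64 ^ i := Nat.mul_le_mul_right _ this
    _ ≤ P.X i := h

lemma q_ge (i : ℕ) : 2 * 64 ^ i ≤ q P i := by
  unfold q
  exact Nat.mul_le_mul (two_le_m i) (X_ge i)

lemma i_le_q (i : ℕ) : i + 1 ≤ q P i := by
  have h1 := q_ge (P := P) i
  have h2 : i < 64 ^ i := Nat.lt_pow_self (by norm_num)
  omega

lemma q_exp (i : ℕ) : Real.exp (-(q P i : ℝ)) ≤ (1 / 2) ^ (i + 1) := by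
  have h1 : (1 : ℝ) / 2 ≥ Real.exp (-1) := by
    rw [Real.exp_neg, ← one_div]
    apply one_div_le_one_div_of_le (by norm_num)
    have := Real.add_one_le_exp (1 : ℝ)
    linarith
  calc Real.exp (-(q P i : ℝ)) ≤ Real.exp (-((i + 1 : ℕ) : ℝ)) := by
        apply Real.exp_le_exp.mpr
        have : ((i + 1 : ℕ) : ℝ) ≤ q P i := by exact_mod_cast i_le_q i
        linarith
    _ = (Real.exp (-1)) ^ (i + 1) := by rw [← Real.exp_nat_mul]; congr 1; push_cast; ring
    _ ≤ (1 / 2) ^ (i + 1) := pow_le_pow_left₀ (Real.exp_pos _).le h1 _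

lemma B_ge_two (l : ℕ → ℕ) (i : ℕ) : 2 ≤ B l i := by
  have h := (R_ge_two l i).trans (R_le_B l i)
  exact_mod_cast h

lemma N_big (i : ℕ) : 16 * q P i ≤ N P i := by
  unfold N
  have h1 := two_le_m (P := P) i
  have h2 : 2 ^ 2 ≤ 2 ^ (m P.l i) := Nat.pow_le_pow_right (by norm_num) h1
  have h3 : 2 * 4 ≤ B P.l i * 2 ^ (m P.l i) := Nat.mul_le_mul (B_ge_two _ _) (by simpa using h2)
  have h4 : 2 * 4 * q P i ≤ B P.l i * 2 ^ (m P.l i) * q P i := Nat.mul_le_mul_right _ h3
  omega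

lemma p_le (i : ℕ) : p P i ≤ 3 * q P i := by
  unfold p q
  have h1 := two_le_m (P := P) i
  nlinarith [X_pos (P := P) i]

lemma U_small {i : ℕ} {ρ : ℝ} (h0 : 0 ≤ ρ) (h : 2 * ρ ≤ R P.l i) :
    U P i ρ ≤ (1 / 2) ^ (i + 1) := by
  have hR := R_ge_two P.l i
  have h1 : ρ / R P.l i ≤ 1 / 2 := by
    rw [div_le_iff₀ (by linarith)]; linarith
  have h1' : 0 ≤ ρ / R P.l i := by positivity
  have h2 : (1 + ρ / R P.l i) ^ (p P i) ≤ Real.exp ((p P i : ℝ) / 2) := by
    calc (1 + ρ / R P.l i) ^ (p P i) ≤ (Real.exp (1 / 2)) ^ (p P i) := by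
          apply pow_le_pow_left₀ (by positivity)
          have := Real.add_one_le_exp (1 / 2 : ℝ)
          linarith
      _ = Real.exp ((p P i : ℝ) / 2) := by rw [← Real.exp_nat_mul]; congr 1; ring
  have h3 : (ρ / R P.l i) ^ (N P i) ≤ Real.exp (-(2 / 3) * (N P i : ℝ)) :=
    (pow_le_pow_left₀ h1' h1 _).trans (half_pow_exp _)
  refine le_trans ?_ (q_exp (P := P) i)
  unfold U
  calc Real.exp (q P i) * (ρ / R P.l i) ^ (N P i) * (1 + ρ / R P.l i) ^ (p P i)
      ≤ Real.exp (q P i) * Real.exp (-(2 / 3) * (N P i : ℝ)) * Real.exp ((p P i : ℝ) / 2) := by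
        gcongr
    _ = Real.exp (q P i - (2 / 3) * (N P i : ℝ) + (p P i : ℝ) / 2) := by
      rw [← Real.exp_add, ← Real.exp_add]; congr 1; ring
    _ ≤ Real.exp (-(q P i : ℝ)) := by
      apply Real.exp_le_exp.mpr
      have h4 : (16 : ℝ) * q P i ≤ N P i := by exact_mod_cast N_big i
      have h5 : (p P i : ℝ) ≤ 3 * q P i := by exact_mod_cast p_le i
      have h6 : (0 : ℝ) ≤ q P i := by positivity
      linarith

lemma U_summable {ρ : ℝ} (h0 : 0 ≤ ρ) : Summable (fun i => U P i ρ) := by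
  have hs : Summable (fun i : ℕ => ((1 : ℝ) / 2) ^ (i + 1)) := by
    have := (summable_geometric_of_lt_one (r := (1 : ℝ) / 2) (by norm_num) (by norm_num))
    exact (summable_nat_add_iff 1).mpr this
  apply Summable.of_norm_bounded_eventually_nat hs
  filter_upwards [(R_tendsto (P := P)).eventually_ge_atTop (2 * ρ)] with i hi
  rw [Real.norm_of_nonneg (U_nonneg i h0)]
  exact U_small h0 hi

variable (P)

/-- the entire function -/
noncomputable def f (z : ℂ) : ℂ := ∑' i, F P i z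

variable {P}

lemma F_diff (i : ℕ) : Differentiable ℂ (F P i) := by
  unfold F
  fun_prop

lemma f_diff : Differentiable ℂ (f P) := by
  intro z
  have hU := U_summable (P := P) (ρ := ‖z‖ + 1) (by positivity)
  have h1 : DifferentiableOn ℂ (fun w => ∑' i, F P i w) (Metric.ball 0 (‖z‖ + 1)) := by
    apply Complex.differentiableOn_tsum_of_summable_norm hU
    · intro i; exact (F_diff i).differentiableOn
    · exact Metric.isOpen_ball
    · intro i w hw
      rw [mem_ball_zero_iff] at hw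
      exact (F_le i w).trans (U_mono i (norm_nonneg _) hw.le)
  exact (h1 z (by rw [mem_ball_zero_iff]; linarith)).differentiableAt
    (Metric.isOpen_ball.mem_nhds (by rw [mem_ball_zero_iff]; linarith))

lemma F_summable (z : ℂ) : Summable (fun i => F P i z) :=
  Summable.of_norm_bounded (U_summable (norm_nonneg z)) (fun i => F_le i z)

lemma F_ray (i : ℕ) {r : ℝ} (hr : 0 ≤ r) : ‖F P i (r : ℂ)‖ = T P i r := by
  unfold F T
  have hR := R_ge_two P.l i
  rw [norm_mul, norm_mul, norm_pow, norm_pow, norm_div, norm_R, Complex.norm_real,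
    Real.norm_of_nonneg (Real.exp_pos _).le, Complex.norm_real, Real.norm_of_nonneg hr]
  congr 2
  have : (1 : ℂ) - (r : ℂ) / (R P.l i : ℂ) = ((1 - r / R P.l i : ℝ) : ℂ) := by push_cast; ring
  rw [this, Complex.norm_real, Real.norm_eq_abs]

lemma T_le_U (i : ℕ) {r : ℝ} (hr : 0 ≤ r) : T P i r ≤ U P i r := by
  have h := F_le (P := P) i (r : ℂ)
  rw [F_ray i hr, Complex.norm_real, Real.norm_of_nonneg hr] at h
  exact h

lemma T_summable {r : ℝ} (hr : 0 ≤ r) : Summable (fun i => T P i r) :=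
  Summable.of_nonneg_of_le (fun i => T_nonneg i hr) (fun i => T_le_U i hr) (U_summable hr)

/-- upper bound on the positive ray -/
lemma f_ray {j : ℕ} {r : ℝ} (h1 : R P.l (j + 1) ≤ r) (h2 : r ≤ R P.l (j + 2)) :
    ‖f P (r : ℂ)‖ ≤ Real.exp (11 * q P j) := by
  have hRj := R_ge_two P.l (j + 1)
  have hr : 0 ≤ r := by linarith
  have hq0 : (0 : ℝ) ≤ q P j := by positivity
  have hf : ‖f P (r : ℂ)‖ ≤ ∑' i, T P i r := by
    unfold f
    have hs : Summable (fun i => ‖F P i (r : ℂ)‖) := by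
      simp only [F_ray _ hr]; exact T_summable hr
    calc ‖∑' i, F P i (r : ℂ)‖ ≤ ∑' i, ‖F P i (r : ℂ)‖ := norm_tsum_le_tsum_norm hs
      _ = ∑' i, T P i r := by simp only [F_ray _ hr]
  have hsplit := (T_summable (P := P) hr).sum_add_tsum_nat_add (j + 3)
  have hone : (1 : ℝ) ≤ Real.exp (9 * q P j) := Real.one_le_exp (by positivity)
  have hfin : ∑ i ∈ Finset.range (j + 3), T P i r ≤ (j + 3) * Real.exp (9 * q P j) := by
    have : ∀ i ∈ Finset.range (j + 3), T P i r ≤ Real.exp (9 * q P j) := by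
      intro i hi
      rw [Finset.mem_range] at hi
      rcases Nat.lt_or_ge i (j + 1) with h | h
      · obtain ⟨d, rfl⟩ := Nat.exists_eq_add_of_le (show i ≤ j by omega)
        have h3 : R P.l i ≤ r := (R_mono _ (by omega)).trans h1
        exact T_left' (i := i) (d := d) (r := r) h3 h2
      · rcases Nat.lt_or_ge i (j + 2) with h' | h'
        · have h3 : i = j + 1 := by omega
          subst h3
          exact (T_self h1 h2).trans hone
        · have h3 : i = j + 2 := by omega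
          subst h3
          exact (T_next h1 h2).trans hone
    calc ∑ i ∈ Finset.range (j + 3), T P i r
        ≤ ∑ i ∈ Finset.range (j + 3), Real.exp (9 * q P j) := Finset.sum_le_sum this
      _ = (j + 3) * Real.exp (9 * q P j) := by
        rw [Finset.sum_const, Finset.card_range, nsmul_eq_mul]; push_cast; ring
  have htail : ∑' i, T P (i + (j + 3)) r ≤ 1 := by
    have hgeo : HasSum (fun i : ℕ => ((1 : ℝ) / 2) ^ (i + 1)) 1 := by
      have h := (hasSum_geometric_of_lt_one (r := (1 : ℝ) / 2) (by norm_num)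
        (by norm_num)).mul_right ((1 : ℝ) / 2)
      have h3 : (1 - (1 : ℝ) / 2)⁻¹ * (1 / 2) = 1 := by norm_num
      rw [h3] at h
      simpa only [pow_succ] using h
    rw [← hgeo.tsum_eq]
    apply Summable.tsum_le_tsum _ ((summable_nat_add_iff (j + 3)).mpr (T_summable hr))
      hgeo.summable
    intro i
    have h3 : r ≤ R P.l (i + j + 2) := h2.trans (R_mono _ (by omega))
    have h4 := T_right hr h3
    have h5 : i + (j + 3) = i + j + 2 + 1 := by ring
    rw [h5]
    refine h4.trans ((q_exp _).trans ?_)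
    apply pow_le_pow_of_le_one (by norm_num) (by norm_num)
    omega
  have hlast : ((j : ℝ) + 4) ≤ Real.exp (2 * q P j) := by
    have h3 : j + 3 ≤ 2 * q P j := by
      have h4 := q_ge (P := P) j
      have h5 : j < 64 ^ j := Nat.lt_pow_self (by norm_num)
      omega
    have h6 : (j : ℝ) + 3 ≤ 2 * q P j := by exact_mod_cast h3
    have := Real.add_one_le_exp (2 * (q P j : ℝ))
    linarith
  calc ‖f P (r : ℂ)‖ ≤ ∑' i, T P i r := hf
    _ = ∑ i ∈ Finset.range (j + 3), T P i r + ∑' i, T P (i + (j + 3)) r := hsplit.symm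
    _ ≤ (j + 3) * Real.exp (9 * q P j) + 1 := add_le_add hfin htail
    _ ≤ (j + 3) * Real.exp (9 * q P j) + Real.exp (9 * q P j) := by linarith
    _ = (j + 4) * Real.exp (9 * q P j) := by ring
    _ ≤ Real.exp (2 * q P j) * Real.exp (9 * q P j) := by
      apply mul_le_mul_of_nonneg_right hlast (Real.exp_pos _).le
    _ = Real.exp (11 * q P j) := by rw [← Real.exp_add]; congr 1; ring

/-- lower bound on the negative ray -/
lemma f_neg {j : ℕ} {r : ℝ} (h1 : R P.l j ≤ r) : Real.exp (q P j) ≤ ‖f P (-(r : ℂ))‖ := by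
  have hRj := R_ge_two P.l j
  have hr : 0 ≤ r := by linarith
  have h2 : ∀ i, F P i (-(r : ℂ)) = ((U P i r : ℝ) : ℂ) := by
    intro i
    unfold F U
    have heven : Even (N P i) := by unfold N; exact even_two_mul _
    rw [neg_div, heven.neg_pow]
    push_cast
    ring
  have h3 : f P (-(r : ℂ)) = ((∑' i, U P i r : ℝ) : ℂ) := by
    unfold f
    simp only [h2]
    rw [Complex.ofReal_tsum]
  rw [h3, Complex.norm_real, Real.norm_of_nonneg (tsum_nonneg (fun i => U_nonneg i hr))]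
  refine le_trans ?_ ((U_summable hr).le_tsum j (fun i _ => U_nonneg i hr))
  unfold U
  have h4 : 1 ≤ r / R P.l j := by rw [le_div_iff₀ (by linarith)]; linarith
  have h5 : (1 : ℝ) ≤ (r / R P.l j) ^ (N P j) := one_le_pow₀ h4
  have h6 : (1 : ℝ) ≤ (1 + r / R P.l j) ^ (p P j) := one_le_pow₀ (by linarith)
  calc Real.exp (q P j) = Real.exp (q P j) * 1 * 1 := by ring
    _ ≤ Real.exp (q P j) * (r / R P.l j) ^ (N P j) * (1 + r / R P.l j) ^ (p P j) := by gcongr

lemma exists_window {r : ℝ} {i₀ : ℕ} (h : R P.l (i₀ + 1) ≤ r) :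
    ∃ j, i₀ ≤ j ∧ R P.l (j + 1) ≤ r ∧ r ≤ R P.l (j + 2) := by
  have hex : ∃ j, r < R P.l (j + 2) := by
    obtain ⟨i, hi⟩ := R_unbounded (P := P) r
    exact ⟨i, hi.trans_le (R_mono _ (by omega))⟩
  classical
  set j := Nat.find hex with hj
  have h1 : r < R P.l (j + 2) := Nat.find_spec hex
  have h2 : i₀ ≤ j := by
    by_contra hcon
    have := R_mono P.l (show j + 2 ≤ i₀ + 1 by omega)
    linarith
  refine ⟨j, h2, ?_, h1.le⟩
  rcases Nat.eq_zero_or_pos j with h0 | h0
  · have : i₀ = j := by omega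
    rw [← this]; exact h
  · have h3 := Nat.find_min hex (m := j - 1) (by omega)
    rw [show j - 1 + 2 = j + 1 by omega] at h3
    exact not_lt.mp h3

end Pool.Agent.KS6_29.FJ
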