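import Pool.Agent.KS6_29.FJ.B

set_option autoImplicit false

open Filter Topology

namespace Pool.Agent.KS6_29.FJ

variable (P : Par)

abbrev S := Σ i : ℕ, Fin (p P i + 1)

noncomputable def g (x : S P) : ℕ := N P x.1 + (x.2 : ℕ)

noncomputable def A (x : S P) : ℂ :=
  (Real.exp (q P x.1) : ℂ) * (1 / (R P.l x.1 : ℂ)) ^ (N P x.1) *
    ((-(1 / (R P.l x.1 : ℂ))) ^ (x.2 : ℕ) * ((p P x.1).choose (x.2 : ℕ) : ℂ))

variable {P}

lemma A_ne (x : S P) : A P x ≠ 0 := by
  have hR := R_ge_two P.l x.1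
  have hR' : (R P.l x.1 : ℂ) ≠ 0 := by
    rw [Ne, Complex.ofReal_eq_zero]; linarith
  unfold A
  have h1 : ((p P x.1).choose (x.2 : ℕ) : ℂ) ≠ 0 := by
    rw [Ne, Nat.cast_eq_zero]
    exact (Nat.choose_pos (by have := x.2.2; omega)).ne'
  have h2 : (Real.exp (q P x.1) : ℂ) ≠ 0 := by
    rw [Ne, Complex.ofReal_eq_zero]; exact (Real.exp_pos _).ne'
  have h3 : (1 / (R P.l x.1 : ℂ)) ≠ 0 := one_div_ne_zero hR'
  exact mul_ne_zero (mul_ne_zero h2 (pow_ne_zero _ h3))
    (mul_ne_zero (pow_ne_zero _ (neg_ne_zero.mpr h3)) h1)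

lemma B_mono (l : ℕ → ℕ) {i j : ℕ} (h : i ≤ j) : B l i ≤ B l j := Nat.ceil_mono (R_mono l h)

lemma N_gap (i : ℕ) : N P i + p P i < N P (i + 1) := by
  have h1 : 2 * N P i ≤ N P (i + 1) := by
    unfold N
    have h2 : B P.l i ≤ B P.l (i + 1) := B_mono _ (by omega)
    have h3 : 2 ^ (m P.l i) ≤ 2 ^ (m P.l (i + 1)) :=
      Nat.pow_le_pow_right (by norm_num) (m_mono (by omega))
    have h4 := q_shift (P := P) i 1
    have h5 : 2 * q P i ≤ q P (i + 1) := by omega
    have h6 : B P.l i * 2 ^ (m P.l i) * (2 * q P i)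
        ≤ B P.l (i + 1) * 2 ^ (m P.l (i + 1)) * q P (i + 1) :=
      Nat.mul_le_mul (Nat.mul_le_mul h2 h3) h5
    calc 2 * (2 * (B P.l i * 2 ^ (m P.l i) * q P i))
        = 2 * (B P.l i * 2 ^ (m P.l i) * (2 * q P i)) := by ring
      _ ≤ _ := Nat.mul_le_mul_left _ h6
  have h2 := N_big (P := P) i
  have h3 := p_le (P := P) i
  have h4 := i_le_q (P := P) i
  omega

lemma N_gap' {i j : ℕ} (h : i < j) : N P i + p P i < N P j := by
  induction j, h using Nat.le_induction with
  | base => exact N_gap i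
  | succ n hn ih => have := N_gap (P := P) n; omega

lemma g_lt {x y : S P} (h : g P x < g P y) : x.1 ≤ y.1 := by
  by_contra hcon
  push Not at hcon
  have h1 := N_gap' (P := P) hcon
  have h2 := y.2.2
  unfold g at h
  omega

lemma g_inj : Function.Injective (g P) := by
  rintro ⟨i, t⟩ ⟨j, s⟩ h
  simp only [g] at h
  have ht := t.2
  have hs := s.2
  rcases lt_trichotomy i j with h1 | h1 | h1
  · have := N_gap' (P := P) h1; omega
  · subst h1
    have : t = s := Fin.ext (by omega)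
    rw [this]
  · have := N_gap' (P := P) h1; omega

lemma fiber_sum (i : ℕ) (z : ℂ) :
    ∑ t : Fin (p P i + 1), A P ⟨i, t⟩ * z ^ (g P ⟨i, t⟩) = F P i z := by
  have h1 : ∀ t : Fin (p P i + 1), A P ⟨i, t⟩ * z ^ (g P ⟨i, t⟩)
      = (fun t : ℕ => (Real.exp (q P i) : ℂ) * (z / (R P.l i : ℂ)) ^ (N P i) *
        ((-(z / (R P.l i : ℂ))) ^ t * 1 ^ (p P i - t) * ((p P i).choose t : ℂ))) (t : ℕ) := by
    intro t
    simp only [A, g]
    rw [pow_add, div_eq_mul_one_div z, mul_pow, ← mul_neg, mul_pow]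
    ring
  rw [Finset.sum_congr rfl (fun t _ => h1 t), Fin.sum_univ_eq_sum_range (fun t : ℕ =>
    (Real.exp (q P i) : ℂ) * (z / (R P.l i : ℂ)) ^ (N P i) *
        ((-(z / (R P.l i : ℂ))) ^ t * 1 ^ (p P i - t) * ((p P i).choose t : ℂ))) (p P i + 1),
    ← Finset.mul_sum, ← add_pow]
  unfold F
  congr 2
  ring

lemma fiber_norm (i : ℕ) {ρ : ℝ} :
    ∑ t : Fin (p P i + 1), ‖A P ⟨i, t⟩‖ * ρ ^ (g P ⟨i, t⟩) = U P i ρ := by
  have hR := R_ge_two P.l i
  have h1 : ∀ t : Fin (p P i + 1), ‖A P ⟨i, t⟩‖ * ρ ^ (g P ⟨i, t⟩)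
      = (fun t : ℕ => Real.exp (q P i) * (ρ / R P.l i) ^ (N P i) *
        ((ρ / R P.l i) ^ t * 1 ^ (p P i - t) * ((p P i).choose t : ℝ))) (t : ℕ) := by
    intro t
    simp only [A, g]
    rw [norm_mul, norm_mul, norm_mul, norm_pow, norm_pow, norm_neg, norm_div, norm_one, norm_R,
      Complex.norm_real, Real.norm_of_nonneg (Real.exp_pos _).le, Complex.norm_natCast]
    rw [pow_add, div_eq_mul_one_div ρ, mul_pow, mul_pow]
    ring
  rw [Finset.sum_congr rfl (fun t _ => h1 t), Fin.sum_univ_eq_sum_range (fun t : ℕ =>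
    Real.exp (q P i) * (ρ / R P.l i) ^ (N P i) *
        ((ρ / R P.l i) ^ t * 1 ^ (p P i - t) * ((p P i).choose t : ℝ))) (p P i + 1),
    ← Finset.mul_sum, ← add_pow]
  unfold U
  congr 2
  ring

lemma S_summable_norm {ρ : ℝ} (h0 : 0 ≤ ρ) :
    Summable (fun x : S P => ‖A P x‖ * ρ ^ (g P x)) := by
  rw [summable_sigma_of_nonneg (fun x => by positivity)]
  refine ⟨fun i => Summable.of_finite, ?_⟩
  have h : (fun i => ∑' t : Fin (p P i + 1), ‖A P ⟨i, t⟩‖ * ρ ^ (g P ⟨i, t⟩))
      = fun i => U P i ρ := by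
    funext i
    rw [tsum_fintype, fiber_norm]
  rw [h]
  exact U_summable h0

lemma S_hasSum (z : ℂ) : HasSum (fun x : S P => A P x * z ^ (g P x)) (f P z) := by
  have hs : Summable (fun x : S P => A P x * z ^ (g P x)) := by
    apply Summable.of_norm
    have := S_summable_norm (P := P) (norm_nonneg z)
    convert this using 2 with x
    rw [norm_mul, norm_pow]
  have h1 := hs.tsum_sigma' (fun i => Summable.of_finite)
  have h2 : ∑' x : S P, A P x * z ^ (g P x) = f P z := by
    rw [h1]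
    unfold f
    congr 1
    funext i
    rw [tsum_fintype, fiber_sum]
  rw [← h2]
  exact hs.hasSum

variable (P)

noncomputable def a : ℕ → ℂ := Function.extend (g P) (A P) 0

variable {P}

lemma a_g (x : S P) : a P (g P x) = A P x := g_inj.extend_apply (A P) 0 x

lemma a_notin {k : ℕ} (h : k ∉ Set.range (g P)) : a P k = 0 := by
  unfold a
  rw [Function.extend_apply' _ _ _ (by simpa using h)]
  rfl

lemma a_hasSum (z : ℂ) : HasSum (fun k => a P k * z ^ k) (f P z) := by
  have h := S_hasSum (P := P) z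
  have h2 : (fun x : S P => A P x * z ^ (g P x)) = (fun k => a P k * z ^ k) ∘ g P := by
    funext x
    simp only [Function.comp, a_g]
  rw [h2, g_inj.hasSum_iff] at h
  · exact h
  · intro k hk
    rw [a_notin hk, zero_mul]

lemma a_summable {ρ : ℝ} (h0 : 0 ≤ ρ) : Summable (fun k => ‖a P k‖ * ρ ^ k) := by
  have h := S_summable_norm (P := P) h0
  have h2 : (fun x : S P => ‖A P x‖ * ρ ^ (g P x)) = (fun k => ‖a P k‖ * ρ ^ k) ∘ g P := by
    funext x
    simp only [Function.comp, a_g]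
  rw [h2, g_inj.summable_iff] at h
  · exact h
  · intro k hk
    rw [a_notin hk, norm_zero, zero_mul]

lemma f_coeff (k : ℕ) : iteratedDeriv k (f P) 0 = (k.factorial : ℂ) * a P k :=
  coeff_lemma (a P) (f P) a_hasSum (fun r => a_summable r.2) k

lemma supp_iff {k : ℕ} : iteratedDeriv k (f P) 0 ≠ 0 ↔ k ∈ Set.range (g P) := by
  constructor
  · intro h
    by_contra hk
    apply h
    rw [f_coeff, a_notin hk, mul_zero]
  · rintro ⟨x, rfl⟩
    rw [f_coeff, a_g]
    exact mul_ne_zero (by exact_mod_cast (Nat.factorial_pos _).ne') (A_ne _)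

lemma N_strict : StrictMono (N P) := by
  apply strictMono_nat_of_lt_succ
  intro n
  have := N_gap (P := P) n
  omega

lemma supp_inf : (Set.ofPred fun k : ℕ => iteratedDeriv k (f P) 0 ≠ 0).Infinite := by
  apply Set.infinite_of_injective_forall_mem (f := N P) N_strict.injective
  intro i
  show iteratedDeriv (N P i) (f P) 0 ≠ 0
  rw [supp_iff]
  exact ⟨⟨i, 0⟩, by simp [g]⟩

/-- enumeration of the exponents -/
lemma exists_enum (P : Par) : ∃ (lam : ℕ → ℕ) (x : ℕ → S P), StrictMono lam ∧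
    (∀ n, iteratedDeriv n (f P) 0 ≠ 0 ↔ ∃ k, lam k = n) ∧ (∀ k, g P (x k) = lam k) ∧
    Function.Injective x ∧ ∀ k, k ≤ 8 * P.X (x k).1 := by
  classical
  have hinf := supp_inf (P := P)
  set lam := Nat.nth (fun k : ℕ => iteratedDeriv k (f P) 0 ≠ 0) with hlam
  have hmono : StrictMono lam := Nat.nth_strictMono hinf
  have hrange : ∀ n, iteratedDeriv n (f P) 0 ≠ 0 ↔ ∃ k, lam k = n := by
    intro n
    have h := Nat.range_nth_of_infinite hinf
    have h2 : n ∈ Set.range lam ↔ iteratedDeriv n (f P) 0 ≠ 0 := by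
      rw [hlam, h]; rfl
    exact h2.symm
  have hx : ∀ k, ∃ x : S P, g P x = lam k := by
    intro k
    have := (hrange (lam k)).2 ⟨k, rfl⟩
    rwa [supp_iff] at this
  choose x hx using hx
  have hxi : Function.Injective x := by
    intro k k' h
    apply hmono.injective
    rw [← hx, ← hx, h]
  refine ⟨lam, x, hmono, hrange, hx, hxi, ?_⟩
  intro k
  set i := (x k).1 with hi
  have h1 : k ≤ ((Finset.range (i + 1)).sigma
      (fun l => (Finset.univ : Finset (Fin (p P l + 1))))).card := by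
    calc k = (Finset.range k).card := (Finset.card_range k).symm
      _ ≤ _ := by
        apply Finset.card_le_card_of_injOn x _ (hxi.injOn)
        intro j hj
        simp only [Finset.coe_range, Set.mem_Iio] at hj
        simp only [Finset.coe_sigma, Set.mem_sigma_iff, Finset.coe_range, Set.mem_Iio,
          Finset.coe_univ, Set.mem_univ, and_true]
        have : g P (x j) < g P (x k) := by rw [hx, hx]; exact hmono hj
        have := g_lt this
        omega
  rw [Finset.card_sigma] at h1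
  simp only [Finset.card_univ, Fintype.card_fin] at h1
  refine h1.trans ?_
  clear_value i
  clear h1 hi
  induction i with
  | zero =>
    rw [Finset.sum_range_one]
    have := X_pos (P := P) 0
    unfold p
    omega
  | succ n ih =>
    rw [Finset.sum_range_succ]
    have h2 := P.X_succ n
    have h3 := X_pos (P := P) n
    have h4 : p P (n + 1) = 6 * P.X (n + 1) := rfl
    omega

lemma N_pos (i : ℕ) : 0 < N P i := by
  have := N_big (P := P) i; have := i_le_q (P := P) i; omega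

lemma recip_fiber (w : ℝ) (hw : 0 ≤ w) (i : ℕ) :
    ∑ t : Fin (p P i + 1), w / ((g P ⟨i, t⟩ : ℕ) : ℝ)
    ≤ 7 / 2 * (w / (B P.l i * m P.l i * 2 ^ (m P.l i))) := by
  have hm := two_le_m (P := P) i
  have hX := X_pos (P := P) i
  have hN := N_pos (P := P) i
  have hB := B_ge_two P.l i
  have h1 : ∀ t : Fin (p P i + 1), w / ((g P ⟨i, t⟩ : ℕ) : ℝ) ≤ w / (N P i : ℝ) := by
    intro t
    apply div_le_div_of_nonneg_left hw (by exact_mod_cast hN)
    simp only [g]
    push_cast
    linarith [(Nat.cast_nonneg (t : ℕ) : (0 : ℝ) ≤ ((t : ℕ) : ℝ))]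
  have hm' : (2 : ℝ) ≤ m P.l i := by exact_mod_cast hm
  have hB' : (2 : ℝ) ≤ B P.l i := by exact_mod_cast hB
  have hX' : (0 : ℝ) < P.X i := by exact_mod_cast hX
  calc ∑ t : Fin (p P i + 1), w / ((g P ⟨i, t⟩ : ℕ) : ℝ)
      ≤ ∑ t : Fin (p P i + 1), w / (N P i : ℝ) := Finset.sum_le_sum (fun t _ => h1 t)
    _ = (p P i + 1) * (w / (N P i : ℝ)) := by
      rw [Finset.sum_const, Finset.card_univ, Fintype.card_fin, nsmul_eq_mul]; push_cast; ring
    _ ≤ (7 * P.X i) * (w / (N P i : ℝ)) := by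
      apply mul_le_mul_of_nonneg_right _ (by positivity)
      have h2 : p P i + 1 ≤ 7 * P.X i := by unfold p; omega
      exact_mod_cast h2
    _ = 7 / 2 * (w / (B P.l i * m P.l i * 2 ^ (m P.l i))) := by
      rw [NR, qp]
      field_simp

/-- summability of reciprocals of exponents with weights -/
lemma S_recip (w : ℕ → ℝ) (hw : ∀ i, 0 ≤ w i)
    (hs : Summable (fun i => w i / (B P.l i * m P.l i * 2 ^ (m P.l i)))) :
    Summable (fun x : S P => w x.1 / ((g P x : ℕ) : ℝ)) := by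
  rw [summable_sigma_of_nonneg (fun x => div_nonneg (hw _) (by positivity))]
  refine ⟨fun i => Summable.of_finite, ?_⟩
  apply Summable.of_nonneg_of_le _ _ (hs.mul_left (7 / 2))
  · intro i; exact tsum_nonneg (fun t => div_nonneg (hw _) (by positivity))
  · intro i
    rw [tsum_fintype]
    exact recip_fiber _ (hw i) i

/-- telescoping -/
lemma summable_of_tele (G : ℕ → ℝ) (hG : ∀ i, 0 ≤ G i) (b : ℕ → ℝ) (hb : ∀ i, 0 ≤ b i) (C : ℝ)
    (hC : 0 ≤ C) (h : ∀ i, b (i + 1) ≤ C * (G i - G (i + 1))) : Summable b := by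
  rw [← summable_nat_add_iff 1]
  apply summable_of_sum_range_le (c := C * G 0) (fun i => hb _)
  intro n
  have : ∑ i ∈ Finset.range n, b (i + 1) ≤ C * (G 0 - G n) := by
    induction n with
    | zero => simp
    | succ n ih => rw [Finset.sum_range_succ]; have := h n; linarith
  have h2 := mul_nonneg hC (hG n)
  linarith

lemma m_succ_ge (i : ℕ) : R P.l i ≤ m P.l (i + 1) := by
  have h1 : m P.l (i + 1) = P.l ⌊R P.l i⌋₊ := rfl
  have h2 := P.l_ge ⌊R P.l i⌋₊
  have h3 := Nat.lt_floor_add_one (R P.l i)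
  have h4 : ((⌊R P.l i⌋₊ + 2 : ℕ) : ℝ) ≤ m P.l (i + 1) := by rw [h1]; exact_mod_cast h2
  push_cast at h4
  linarith

lemma fejer_summable : Summable (fun i => (1 : ℝ) / (B P.l i * m P.l i * 2 ^ (m P.l i))) := by
  apply summable_of_tele (fun i => 1 / R P.l i) _ _ _ 1 (by norm_num)
  · intro i
    have h1 := R_ge_two P.l i
    have h2 := R_ge_two P.l (i + 1)
    have h3 := R_le_B P.l (i + 1)
    have h4 := m_succ_ge (P := P) i
    have h5 : 1 / R P.l i - 1 / R P.l (i + 1)
        = 1 / (R P.l (i + 1) * R P.l i * 2 ^ (m P.l (i + 1))) := by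
      have h50 : R P.l (i + 1) ≠ 0 := by linarith
      have h51 : R P.l i ≠ 0 := by linarith
      have h6 : R P.l (i + 1) - R P.l i = 1 / 2 ^ (m P.l (i + 1)) := by rw [R_succ]; ring
      rw [div_sub_div _ _ h51 h50, one_mul, mul_one, h6]
      field_simp
    rw [one_mul, h5]
    apply one_div_le_one_div_of_le (by positivity)
    gcongr
  · intro i
    have := R_ge_two P.l i
    positivity
  · intro i; positivity

lemma weight_summable (w : ℕ → ℝ) (hw : ∀ i, 0 ≤ w i)
    (h : ∀ i, w (i + 1) ≤ m P.l (i + 1) * (1 / 2) ^ ⌊R P.l i⌋₊) :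
    Summable (fun i => w i / (B P.l i * m P.l i * 2 ^ (m P.l i))) := by
  apply summable_of_tele (fun i => Real.exp (-(R P.l i / 2))) (fun i => (Real.exp_pos _).le) _
    (fun i => div_nonneg (hw i) (by positivity)) 4 (by norm_num)
  intro i
  have h1 := R_ge_two P.l i
  have hm : (2 : ℝ) ≤ m P.l (i + 1) := by exact_mod_cast two_le_m (P := P) (i + 1)
  have hB : (2 : ℝ) ≤ B P.l (i + 1) := by exact_mod_cast B_ge_two P.l (i + 1)
  set δ : ℝ := 1 / 2 ^ (m P.l (i + 1)) with hδ
  have hδ0 : 0 < δ := by positivity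
  have hδ1 : δ ≤ 1 := by
    rw [hδ, div_le_one (by positivity)]
    exact one_le_pow₀ (by norm_num)
  have hRs : R P.l (i + 1) = R P.l i + δ := R_succ _ _
  -- the weight
  have h2 : ((1 : ℝ) / 2) ^ ⌊R P.l i⌋₊ ≤ 2 * Real.exp (-(R P.l i / 2)) := by
    have h3 := half_pow_exp ⌊R P.l i⌋₊
    have h4 := Nat.lt_floor_add_one (R P.l i)
    have h5 : Real.exp (-(2 / 3) * (⌊R P.l i⌋₊ : ℝ)) ≤ Real.exp (1 / 2 + -(R P.l i / 2)) := by
      apply Real.exp_le_exp.mpr
      have : (0 : ℝ) ≤ ⌊R P.l i⌋₊ := by positivity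
      linarith
    have h6 : Real.exp (1 / 2) ≤ 2 := by
      have h7 : Real.exp (1 / 2) ^ 2 = Real.exp 1 := by
        rw [← Real.exp_nat_mul]; norm_num
      have h8 : Real.exp 1 < 2.7182818286 := Real.exp_one_lt_d9
      by_contra hcon
      push Not at hcon
      nlinarith
    rw [Real.exp_add] at h5
    refine h3.trans (h5.trans ?_)
    exact mul_le_mul_of_nonneg_right h6 (Real.exp_pos _).le
  have h3 : δ / 3 * Real.exp (-(R P.l i / 2)) ≤
      Real.exp (-(R P.l i / 2)) - Real.exp (-(R P.l (i + 1) / 2)) := by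
    have h4 : Real.exp (-(R P.l (i + 1) / 2)) =
        Real.exp (-(R P.l i / 2)) * Real.exp (-(δ / 2)) := by
      rw [← Real.exp_add, hRs]; congr 1; ring
    rw [h4]
    have h5 : Real.exp (-(δ / 2)) ≤ 1 - δ / 3 := by
      have h6 := Real.add_one_le_exp (δ / 2)
      rw [Real.exp_neg, inv_le_comm₀ (Real.exp_pos _) (by linarith)]
      refine le_trans ?_ h6
      rw [inv_le_comm₀ (by linarith) (by linarith), ← one_div, div_le_iff₀ (by linarith)]
      nlinarith
    have h7 := Real.exp_pos (-(R P.l i / 2))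
    nlinarith
  have h4 : w (i + 1) / (B P.l (i + 1) * m P.l (i + 1) * 2 ^ (m P.l (i + 1)))
      ≤ (2 * Real.exp (-(R P.l i / 2))) * δ / 2 := by
    rw [div_le_iff₀ (by positivity)]
    have h5 : 2 * Real.exp (-(R P.l i / 2)) * δ / 2 *
        (B P.l (i + 1) * m P.l (i + 1) * 2 ^ (m P.l (i + 1))) =
        (m P.l (i + 1) * (2 * Real.exp (-(R P.l i / 2)))) * (B P.l (i + 1) / 2) := by
      rw [hδ]; field_simp
    rw [h5]
    have h6 : w (i + 1) ≤ m P.l (i + 1) * (2 * Real.exp (-(R P.l i / 2))) :=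
      (h i).trans (mul_le_mul_of_nonneg_left h2 (by linarith))
    have h7 : 0 ≤ m P.l (i + 1) * (2 * Real.exp (-(R P.l i / 2))) := by positivity
    nlinarith
  refine h4.trans ?_
  have h7 := mul_pos hδ0 (Real.exp_pos (-(R P.l i / 2)))
  show 2 * Real.exp (-(R P.l i / 2)) * δ / 2 ≤
    4 * (Real.exp (-(R P.l i / 2)) - Real.exp (-(R P.l (i + 1) / 2)))
  nlinarith

/-- the index is bounded in terms of the window exponent -/
lemma index_le (i : ℕ) : i ≤ 4 ^ (m P.l i) := by
  have h1 : ∀ n : ℕ, (n : ℝ) ≤ (R P.l n - 2) * 2 ^ (m P.l n) := by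
    intro n
    have h2 : ∀ k ≤ n, (k : ℝ) * (1 / 2 ^ (m P.l n)) ≤ R P.l k - 2 := by
      intro k hk
      induction k with
      | zero => simp; linarith [R_ge_two P.l 0]
      | succ k ih =>
        have h3 := ih (by omega)
        rw [R_succ]
        have h4 : (1 : ℝ) / 2 ^ (m P.l n) ≤ 1 / 2 ^ (m P.l (k + 1)) := by
          apply one_div_le_one_div_of_le (by positivity)
          exact pow_le_pow_right₀ (by norm_num) (m_mono hk)
        push_cast
        linarith
    have h3 := h2 n le_rfl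
    rw [mul_one_div, div_le_iff₀ (by positivity)] at h3
    exact h3
  have h2 : R P.l i - 2 ≤ 2 ^ (m P.l i) := by
    have h3 : R P.l i - 1 ≤ m P.l i := by
      cases i with
      | zero =>
        have h0 : R P.l 0 = 2 := rfl
        have : (2 : ℝ) ≤ m P.l 0 := by exact_mod_cast two_le_m (P := P) 0
        linarith
      | succ n =>
        have h4 := m_succ_ge (P := P) n
        have h5 : (1 : ℝ) / 2 ^ (m P.l (n + 1)) ≤ 1 := by
          rw [div_le_one (by positivity)]
          exact one_le_pow₀ (by norm_num)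
        rw [R_succ]
        linarith
    have h4 : (m P.l i : ℝ) ≤ 2 ^ (m P.l i) := by exact_mod_cast (Nat.lt_two_pow_self).le
    linarith
  have h3 : (i : ℝ) ≤ 4 ^ (m P.l i) := by
    calc (i : ℝ) ≤ (R P.l i - 2) * 2 ^ (m P.l i) := h1 i
      _ ≤ 2 ^ (m P.l i) * 2 ^ (m P.l i) := by gcongr
      _ = 4 ^ (m P.l i) := by rw [← mul_pow]; norm_num
  exact_mod_cast h3

end Pool.Agent.KS6_29.FJ
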