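import Pool.Agent.KS6_29.FJ.C

set_option autoImplicit false

open Filter Topology

namespace Pool.Agent.KS6_29.FJ

/-- `f` is a transcendental entire function, `lam` is the increasing enumeration of the exponents
with non-zero Taylor coefficient and the reciprocals of the exponents are summable. -/
def FejerSeries (f : ℂ → ℂ) (lam : ℕ → ℕ) : Prop :=
  Differentiable ℂ f ∧ StrictMono lam ∧
    (∀ n, iteratedDeriv n f 0 ≠ 0 ↔ ∃ k, lam k = n) ∧
    Summable (fun k => 1 / (lam k : ℝ))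

/-- maximum modulus -/
noncomputable def M (f : ℂ → ℂ) (r : ℝ) : ℝ := sSup ((fun z => ‖f z‖) '' Metric.sphere (0 : ℂ) r)

lemma le_M {f : ℂ → ℂ} (hf : Differentiable ℂ f) {r : ℝ} (hr : 0 ≤ r) :
    ‖f (-(r : ℂ))‖ ≤ M f r := by
  have hbdd : BddAbove ((fun z => ‖f z‖) '' Metric.sphere (0 : ℂ) r) :=
    ((isCompact_sphere (0 : ℂ) r).image (hf.continuous.norm)).bddAbove
  refine le_csSup hbdd ⟨-(r : ℂ), ?_, rfl⟩
  rw [mem_sphere_zero_iff_norm, norm_neg, Complex.norm_real, Real.norm_of_nonneg hr]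

theorem fejer (P : Par) (lam : ℕ → ℕ) (x : ℕ → S P) (h1 : StrictMono lam)
    (h2 : ∀ n, iteratedDeriv n (f P) 0 ≠ 0 ↔ ∃ k, lam k = n) (h3 : ∀ k, g P (x k) = lam k)
    (h4 : Function.Injective x) : FejerSeries (f P) lam := by
  refine ⟨f_diff, h1, h2, ?_⟩
  have h5 := S_recip (P := P) (fun _ => 1) (fun _ => zero_le_one) fejer_summable
  have h6 := h5.comp_injective h4
  refine h6.congr fun k => ?_
  simp only [Function.comp, h3]

/-! ### Arbitrarily slow growth along the positive ray -/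

/-- the recursion for `X` -/
def Xrec (l : ℕ → ℕ) (mm : ℕ → ℕ) (θ : ℕ → ℕ) : ℕ → ℕ
  | 0 => 1
  | i + 1 => max (64 * Xrec l mm θ i) (θ (11 * (mm i * Xrec l mm θ i)))

theorem slow (ψ : ℝ → ℝ) (hψ : Tendsto ψ atTop atTop) :
    ∃ (f : ℂ → ℂ) (lam : ℕ → ℕ), FejerSeries f lam ∧
      ∀ᶠ r : ℝ in atTop, ‖f (r : ℂ)‖ ≤ ψ (M f r) := by
  have hθ : ∀ y : ℕ, ∃ n : ℕ, ∀ x : ℝ, (n : ℝ) ≤ x → Real.exp y ≤ ψ x := by
    intro y
    obtain ⟨c, hc⟩ := eventually_atTop.1 (hψ.eventually_ge_atTop (Real.exp y))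
    obtain ⟨n, hn⟩ := exists_nat_ge c
    exact ⟨n, fun x hx => hc x (hn.trans hx)⟩
  choose θ hθ using hθ
  let l : ℕ → ℕ := fun s => s + 2
  let P : Par :=
    { l := l
      X := Xrec l (m l) θ
      l_mono := fun a b h => Nat.add_le_add_right h 2
      l_ge := fun s => le_rfl
      X_zero := le_rfl
      X_succ := fun i => le_max_left _ _ }
  obtain ⟨lam, x, h1, h2, h3, h4, -⟩ := exists_enum P
  refine ⟨f P, lam, fejer P lam x h1 h2 h3 h4, ?_⟩
  filter_upwards [eventually_ge_atTop (R P.l 1)] with r hr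
  obtain ⟨j, -, hj1, hj2⟩ := exists_window (P := P) (i₀ := 0) hr
  have hr0 : 0 ≤ r := by linarith [R_ge_two P.l (j + 1)]
  have h5 := f_ray hj1 hj2
  have h6 := (f_neg hj1).trans (le_M f_diff hr0)
  have h7 : θ (11 * q P j) ≤ q P (j + 1) := by
    have h8 : θ (11 * q P j) ≤ P.X (j + 1) := le_max_right _ _
    have h9 : P.X (j + 1) ≤ q P (j + 1) := by
      unfold q
      exact Nat.le_mul_of_pos_left _ (by have := two_le_m (P := P) (j + 1); omega)
    exact h8.trans h9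
  have h8 := hθ (11 * q P j) (M (f P) r) (by
    have h9 : ((θ (11 * q P j) : ℕ) : ℝ) ≤ q P (j + 1) := by exact_mod_cast h7
    have h10 := Real.add_one_le_exp (q P (j + 1) : ℝ)
    linarith)
  refine h5.trans ?_
  push_cast at h8
  exact h8

/-! ### Sharpness of the condition on `∑ (log log k) / λ_k` -/

lemma X_explicit (i : ℕ) : ((8 * (64 ^ i * (i + 1).factorial) : ℕ) : ℝ) ≤
    Real.exp (64 * ((i : ℝ) + 1) ^ 2) := by
  have h1 : 8 * (64 ^ i * (i + 1).factorial) ≤ (64 * (i + 1)) ^ (i + 1) := by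
    have h2 := Nat.factorial_le_pow (i + 1)
    calc 8 * (64 ^ i * (i + 1).factorial) ≤ 64 * (64 ^ i * (i + 1) ^ (i + 1)) := by gcongr; norm_num
      _ = (64 * (i + 1)) ^ (i + 1) := by rw [mul_pow]; ring
  calc ((8 * (64 ^ i * (i + 1).factorial) : ℕ) : ℝ) ≤ ((64 * (i + 1)) ^ (i + 1) : ℕ) := by
        exact_mod_cast h1
    _ = (64 * ((i : ℝ) + 1)) ^ (i + 1) := by push_cast; ring
    _ ≤ (Real.exp (64 * ((i : ℝ) + 1))) ^ (i + 1) := by
        apply pow_le_pow_left₀ (by positivity)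
        linarith [Real.add_one_le_exp (64 * ((i : ℝ) + 1))]
    _ = Real.exp (64 * ((i : ℝ) + 1) ^ 2) := by
        rw [← Real.exp_nat_mul]; congr 1; push_cast; ring

lemma exp_bound {i D : ℕ} (h : i ≤ 4 ^ D) :
    64 * ((i : ℝ) + 1) ^ 2 ≤ Real.exp (3 * D + 6) := by
  have h1 : (i : ℝ) ≤ 4 ^ D := by exact_mod_cast h
  have h2 : (1 : ℝ) ≤ 4 ^ D := one_le_pow₀ (by norm_num)
  have h3 : ((i : ℝ) + 1) ^ 2 ≤ 4 * 16 ^ D := by
    calc ((i : ℝ) + 1) ^ 2 ≤ (2 * 4 ^ D) ^ 2 := by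
          apply pow_le_pow_left₀ (by positivity); linarith
      _ = 4 * 16 ^ D := by rw [mul_pow, ← pow_mul, mul_comm D 2, pow_mul]; norm_num
  have he : (2.7 : ℝ) ≤ Real.exp 1 := by
    have := Real.exp_one_gt_d9; linarith
  have h4 : (16 : ℝ) ≤ Real.exp 3 := by
    have : Real.exp 3 = Real.exp 1 ^ 3 := by rw [← Real.exp_nat_mul]; norm_num
    rw [this]
    calc (16 : ℝ) ≤ 2.7 ^ 3 := by norm_num
      _ ≤ _ := pow_le_pow_left₀ (by norm_num) he 3
  have h5 : (256 : ℝ) ≤ Real.exp 6 := by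
    have : Real.exp 6 = Real.exp 1 ^ 6 := by rw [← Real.exp_nat_mul]; norm_num
    rw [this]
    calc (256 : ℝ) ≤ 2.7 ^ 6 := by norm_num
      _ ≤ _ := pow_le_pow_left₀ (by norm_num) he 6
  calc 64 * ((i : ℝ) + 1) ^ 2 ≤ 256 * 16 ^ D := by linarith
    _ ≤ Real.exp 6 * (Real.exp 3) ^ D := by
        apply mul_le_mul h5 (pow_le_pow_left₀ (by norm_num) h4 D) (by positivity)
          (Real.exp_pos _).le
    _ = Real.exp (3 * D + 6) := by
        rw [← Real.exp_nat_mul, ← Real.exp_add]; congr 1; ring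

lemma phi_bound (φ : ℕ → ℝ)
    (hφ : Tendsto (fun k : ℕ => φ k / Real.log (Real.log k)) atTop (𝓝 0)) (ε : ℝ) (hε : 0 < ε) :
    ∃ D₀ : ℕ, ∀ D : ℕ, D₀ ≤ D → ∀ k : ℕ, (k : ℝ) ≤ Real.exp (Real.exp (3 * D + 6)) →
      |φ k| ≤ ε * D := by
  have h1 := (Metric.tendsto_atTop.1 hφ) (ε / 9) (by positivity)
  obtain ⟨k₀, hk₀⟩ := h1
  set K := max k₀ 16 with hK
  set C := ∑ j ∈ Finset.range K, |φ j| with hC
  obtain ⟨D₁, hD₁⟩ := exists_nat_ge (C / ε)
  refine ⟨max D₁ 1, fun D hD k hk => ?_⟩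
  have hD1 : (1 : ℝ) ≤ D := by
    have : 1 ≤ D := le_trans (le_max_right _ _) hD
    exact_mod_cast this
  rcases lt_or_ge k K with h | h
  · have h2 : |φ k| ≤ C := Finset.single_le_sum (f := fun j => |φ j|)
      (fun j _ => abs_nonneg _) (Finset.mem_range.2 h)
    have h3 : (D₁ : ℝ) ≤ D := by exact_mod_cast le_trans (le_max_left _ _) hD
    rw [div_le_iff₀ hε] at hD₁
    nlinarith
  · have hk16 : (16 : ℝ) ≤ k := by exact_mod_cast le_trans (le_max_right _ _) h
    have hlog : 1 < Real.log k := by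
      rw [Real.lt_log_iff_exp_lt (by linarith)]
      have := Real.exp_one_lt_d9
      linarith
    have hll : 0 < Real.log (Real.log k) := Real.log_pos hlog
    have h2 := hk₀ k (le_trans (le_max_left _ _) h)
    rw [Real.dist_eq, sub_zero, abs_div, abs_of_pos hll, div_lt_iff₀ hll] at h2
    have h3 : Real.log (Real.log k) ≤ 3 * D + 6 := by
      have h4 : Real.log k ≤ Real.exp (3 * D + 6) := by
        rw [Real.log_le_iff_le_exp (by linarith)]; exact hk
      rw [Real.log_le_iff_le_exp (by linarith)]; exact h4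
    have h5 : ε / 9 * Real.log (Real.log k) ≤ ε / 9 * (9 * D) := by
      apply mul_le_mul_of_nonneg_left _ (by positivity)
      linarith
    linarith

theorem sharp (φ : ℕ → ℝ)
    (hφ : Tendsto (fun k : ℕ => φ k / Real.log (Real.log k)) atTop (𝓝 0)) :
    ∃ (f : ℂ → ℂ) (lam : ℕ → ℕ), FejerSeries f lam ∧ Summable (fun k => φ k / lam k) ∧
      ∀ ε : ℝ, 0 < ε → ∀ᶠ r : ℝ in atTop, 1 ≤ M f r ∧ ‖f (r : ℂ)‖ ≤ M f r ^ ε := by
  have hD := fun s : ℕ => phi_bound φ hφ ((1 / 2) ^ s) (by positivity)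
  choose D₀ hD₀ using hD
  let l : ℕ → ℕ := fun s => s + 2 + ∑ t ∈ Finset.range (s + 1), D₀ t
  have hl : ∀ s, D₀ s ≤ l s := fun s => by
    have : D₀ s ≤ ∑ t ∈ Finset.range (s + 1), D₀ t :=
      Finset.single_le_sum (f := D₀) (fun _ _ => Nat.zero_le _) (Finset.mem_range.2 (by omega))
    show D₀ s ≤ s + 2 + ∑ t ∈ Finset.range (s + 1), D₀ t
    omega
  let P : Par :=
    { l := l
      X := fun i => 64 ^ i * (i + 1).factorial
      l_mono := fun a b h => by
        apply Nat.add_le_add (Nat.add_le_add_right h 2)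
        exact Finset.sum_le_sum_of_subset (Finset.range_mono (by omega))
      l_ge := fun s => Nat.le_add_right _ _
      X_zero := by norm_num
      X_succ := fun i => by
        have h := Nat.factorial_le (show i + 1 ≤ i + 1 + 1 by omega)
        calc 64 * (64 ^ i * (i + 1).factorial) = 64 ^ (i + 1) * (i + 1).factorial := by ring
          _ ≤ 64 ^ (i + 1) * (i + 1 + 1).factorial := Nat.mul_le_mul_left _ h }
  obtain ⟨lam, x, h1, h2, h3, h4, h5⟩ := exists_enum P
  refine ⟨f P, lam, fejer P lam x h1 h2 h3 h4, ?_, ?_⟩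
  · let w : ℕ → ℝ := fun i =>
      (Finset.range (8 * P.X i + 1)).sup' ⟨0, Finset.mem_range.2 (by omega)⟩ (fun j => |φ j|)
    have hw1 : ∀ i k, k ≤ 8 * P.X i → |φ k| ≤ w i := fun i k hk =>
      Finset.le_sup' (fun j => |φ j|) (Finset.mem_range.2 (by omega))
    have hw0 : ∀ i, 0 ≤ w i := fun i => (abs_nonneg _).trans (hw1 i 0 (Nat.zero_le _))
    have hw2 : ∀ i, w (i + 1) ≤ m P.l (i + 1) * (1 / 2) ^ ⌊R P.l i⌋₊ := by
      intro i
      apply Finset.sup'_le
      intro k hk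
      rw [Finset.mem_range] at hk
      rw [mul_comm]
      apply hD₀ ⌊R P.l i⌋₊ (m P.l (i + 1)) (hl _) k
      have h6 : (k : ℝ) ≤ ((8 * (64 ^ (i + 1) * (i + 1 + 1).factorial) : ℕ) : ℝ) := by
        have : k ≤ 8 * P.X (i + 1) := by omega
        exact_mod_cast this
      refine h6.trans ((X_explicit (i + 1)).trans ?_)
      exact Real.exp_le_exp.mpr (exp_bound (index_le _))
    have h6 := (S_recip (P := P) w hw0 (weight_summable w hw0 hw2)).comp_injective h4
    apply Summable.of_norm_bounded h6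
    intro k
    simp only [Function.comp, h3]
    rw [Real.norm_eq_abs, abs_div, Nat.abs_cast]
    exact div_le_div_of_nonneg_right (hw1 _ k (h5 k)) (by positivity)
  · intro ε hε
    obtain ⟨j₀, hj₀⟩ := exists_nat_ge (11 / ε)
    filter_upwards [eventually_ge_atTop (R P.l (j₀ + 1))] with r hr
    obtain ⟨j, hj, hj1, hj2⟩ := exists_window (P := P) (i₀ := j₀) hr
    have hr0 : 0 ≤ r := by linarith [R_ge_two P.l (j + 1)]
    have h6 := f_ray hj1 hj2
    have h7 := (f_neg hj1).trans (le_M f_diff hr0)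
    have h8 : (j + 1) * q P j ≤ q P (j + 1) := by
      unfold q
      have h9 : P.X (j + 1) = 64 ^ (j + 1) * (j + 1 + 1).factorial := rfl
      have h10 : P.X j = 64 ^ j * (j + 1).factorial := rfl
      have h11 : (j + 1) * P.X j ≤ P.X (j + 1) := by
        rw [h9, h10, Nat.factorial_succ (j + 1), pow_succ]
        calc (j + 1) * (64 ^ j * (j + 1).factorial) = 64 ^ j * 1 * ((j + 1) * (j + 1).factorial) := by
              ring
          _ ≤ 64 ^ j * 64 * ((j + 1 + 1) * (j + 1).factorial) := by gcongr <;> omega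
      calc (j + 1) * (m P.l j * P.X j) = m P.l j * ((j + 1) * P.X j) := by ring
        _ ≤ m P.l (j + 1) * P.X (j + 1) := Nat.mul_le_mul (m_mono (by omega)) h11
    have h9 : ((j : ℝ) + 1) * q P j ≤ q P (j + 1) := by exact_mod_cast h8
    have h10 : 11 ≤ ε * (j + 1) := by
      have : (j₀ : ℝ) ≤ j := by exact_mod_cast hj
      rw [div_le_iff₀ hε] at hj₀
      nlinarith
    have h11 : (11 : ℝ) * q P j ≤ q P (j + 1) * ε := by
      have h12 : (0 : ℝ) ≤ q P j := by positivity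
      nlinarith
    refine ⟨?_, ?_⟩
    · exact (Real.one_le_exp (by positivity)).trans h7
    · calc ‖f P (r : ℂ)‖ ≤ Real.exp (11 * q P j) := h6
        _ ≤ Real.exp (q P (j + 1) * ε) := Real.exp_le_exp.mpr h11
        _ = Real.exp (q P (j + 1)) ^ ε := by rw [Real.exp_mul]
        _ ≤ M (f P) r ^ ε := Real.rpow_le_rpow (Real.exp_pos _).le h7 hε.le

end Pool.Agent.KS6_29.FJ
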